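import Pool.Agent.Helper42.DB.Goals4

set_option autoImplicit false

/-! # Packet GRC0 -/

namespace Pool.Agent.Helper42.DB.PkGRC0

open Set Filter Topology

variable {S : Sys}

/-- determinism -/
lemma det {x y y' : St S} (h : FlG x y) (h' : FlG x y') : y = y' := by
  obtain ⟨_, hy, he, t, ht, hp, hs⟩ := h
  obtain ⟨_, hy', he', t', ht', hp', hs'⟩ := h'
  have htt : t = t' := by
    rcases lt_trichotomy t t' with hlt | heq | hgt
    · exfalso
      have h1 := hs' t ⟨ht, hlt⟩
      rw [← hp] at h1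
      exact S.out y.i y.u (Ioo_subset_Icc_self hy.1) h1
    · exact heq
    · exfalso
      have h1 := hs t' ⟨ht', hgt⟩
      rw [← hp'] at h1
      exact S.out y'.i y'.u (Ioo_subset_Icc_self hy'.1) h1
  have hpos : S.g y.i y.u = S.g y'.i y'.u := by
    have h1 : y.pos = y'.pos := by rw [hp, hp', htt]
    exact h1
  obtain ⟨hi, hu⟩ := S.inj y.i y'.i y.u hy.1 y'.u (Ioo_subset_Icc_self hy'.1) hpos
  have hb : ee y.bk = ee y'.bk := by
    have h1 : -ee y.bk = -ee y'.bk := by rw [← he, ← he']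
    exact neg_injective h1
  rw [ee_eq_ee_iff] at hb
  have h2 : y.bk - y'.bk = y'.φ - y.φ := by
    simp only [St.bk, hu]
    ring
  rw [h2] at hb
  have h3 := abs_le.mp hy.2
  have h4 := abs_le.mp hy'.2
  have hpi := Real.pi_pos
  have h5 : y'.φ - y.φ = 0 := (Real.cos_eq_one_iff_of_lt_of_lt (by linarith) (by linarith)).mp hb
  have hφ : y.φ = y'.φ := by linarith
  exact St.ext hi hu hφ

lemma det_seq {z z' : ℕ → St S} (h : ∀ k, FlG (z k) (z (k + 1)))
    (h' : ∀ k, FlG (z' k) (z' (k + 1))) {a b : ℕ} (hab : z a = z' b) (j : ℕ) :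
    z (a + j) = z' (b + j) := by
  induction j with
  | zero => exact hab
  | succ j ih =>
    have h1 := h (a + j)
    have h2 := h' (b + j)
    rw [ih] at h1
    exact det h1 h2

/-- a tangential state does not change the direction -/
lemma tan_th {y : St S} (h : |y.φ| = Real.pi / 2) : ee y.th = -ee y.bk := by
  rcases (abs_eq (by positivity : (0:ℝ) ≤ Real.pi / 2)).mp h with h1 | h1
  · have : y.th = y.bk + Real.pi := by
      simp only [St.th, St.bk, h1]; ring
    rw [this, ee_add_pi]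
  · have : y.bk = y.th + Real.pi := by
      simp only [St.th, St.bk, h1]; ring
    rw [this, ee_add_pi, neg_neg]

/-- not all states of a periodic orbit are tangential -/
lemma not_all_tan {z : ℕ → St S} {p : ℕ} (hp : 0 < p) (h : ∀ k, FlG (z k) (z (k + 1)))
    (hper : ∀ k, z (k + p) = z k) : ¬ ∀ k, |(z k).φ| = Real.pi / 2 := by
  intro hall
  have hdir : ∀ k, ee (z k).th = ee (z 0).th := by
    intro k
    induction k with
    | zero => rfl
    | succ k ih =>
      rw [tan_th (hall (k + 1)), ← ih]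
      exact (h k).2.2.1.symm
  have hmono : StrictMono (fun k => dt (ee (z 0).th) (z k).pos) := by
    refine strictMono_nat_of_lt_succ (fun k => ?_)
    obtain ⟨_, _, _, t, ht, hpos, _⟩ := h k
    rw [hpos, dt_add_right, dt_smul_right, hdir k, dt_self, norm_ee]
    simp only [one_pow, mul_one]
    linarith
  have h1 := hmono hp
  have h2 := hper 0
  rw [zero_add] at h2
  simp only [h2, lt_self_iff_false] at h1

lemma per_mul {z : ℕ → St S} {p : ℕ} (hper : ∀ k, z (k + p) = z k) (k m : ℕ) :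
    z (k + m * p) = z k := by
  induction m with
  | zero => simp
  | succ m ih =>
    have : k + (m + 1) * p = k + m * p + p := by ring
    rw [this, hper, ih]

/-- the rotated representation of an orbit with a tangential collision -/
lemma exist_rep {n : ℕ} {O : Set (St S)} (hO : O ∈ TanOrb0 S n) :
    ∃ (z : ℕ → St S) (k : ℕ), (∀ j, FlG (z j) (z (j + 1))) ∧ O = range z ∧
      |(z 0).φ| = Real.pi / 2 ∧ |(z (k + 2)).φ| = Real.pi / 2 ∧
      (∀ j, 1 ≤ j → j ≤ k + 1 → |(z j).φ| < Real.pi / 2) ∧ k < n := by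
  classical
  obtain ⟨⟨z, p, hp, hfl, hper, rfl⟩, hn, x, ⟨m, rfl⟩, hx⟩ := hO
  have hle : ∀ k, |(z k).φ| ≤ Real.pi / 2 := fun k => (hfl k).1.2
  -- a transversal state after `m`
  have h1 : ∃ j, m < j ∧ |(z j).φ| < Real.pi / 2 := by
    by_contra hcon
    push Not at hcon
    apply not_all_tan hp hfl hper
    intro k
    have h2 : z k = z (k + (m + 1) * p) := (per_mul hper k (m + 1)).symm
    rw [h2]
    refine le_antisymm (hle _) (hcon _ ?_)
    have : m + 1 ≤ (m + 1) * p := Nat.le_mul_of_pos_right _ hp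
    omega
  -- the first one
  let j0 := Nat.find h1
  have hj0 := Nat.find_spec h1
  have hj0' : ∀ i, i < j0 → ¬ (m < i ∧ |(z i).φ| < Real.pi / 2) := fun i hi => Nat.find_min h1 hi
  obtain ⟨a, ha⟩ : ∃ a, j0 = a + 1 := ⟨j0 - 1, by have := hj0.1; omega⟩
  have ha1 : |(z a).φ| = Real.pi / 2 := by
    by_cases ham : a = m
    · rw [ham]; exact hx
    · have h3 := hj0' a (by omega)
      have h4 : m < a := by
        have := hj0.1
        have h5 : m < a + 1 := by rw [← ha]; exact this
        omega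
      have h5 : ¬ |(z a).φ| < Real.pi / 2 := fun h => h3 ⟨h4, h⟩
      exact le_antisymm (hle a) (not_lt.mp h5)
  have ha2 : |(z (a + 1)).φ| < Real.pi / 2 := by rw [← ha]; exact hj0.2
  -- the next tangential one
  have h2 : ∃ q, 1 ≤ q ∧ |(z (a + q)).φ| = Real.pi / 2 := ⟨p, hp, by rw [hper]; exact ha1⟩
  let q := Nat.find h2
  have hq : 1 ≤ q ∧ |(z (a + q)).φ| = Real.pi / 2 := Nat.find_spec h2
  have hq' : ∀ i, i < q → 1 ≤ i → |(z (a + i)).φ| < Real.pi / 2 := by
    intro i hi hi1
    have h3 := Nat.find_min h2 hi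
    have h4 : ¬ |(z (a + i)).φ| = Real.pi / 2 := fun h => h3 ⟨hi1, h⟩
    exact lt_of_le_of_ne (hle _) h4
  have hq2 : 2 ≤ q := by
    by_contra hcon
    have : q = 1 := by omega
    have h3 := hq.2
    rw [this] at h3
    linarith
  have hinj : ∀ i j, 1 ≤ i → i < j → j < q → z (a + i) ≠ z (a + j) := by
    intro i j hi hij hj heq
    have h3 := det_seq hfl hfl heq (q - j)
    have h4 : a + j + (q - j) = a + q := by omega
    have h5 : a + i + (q - j) = a + (i + (q - j)) := by omega
    rw [h4, h5] at h3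
    have h6 := hq' (i + (q - j)) (by omega) (by omega)
    rw [h3] at h6
    linarith [hq.2]
  have hfin : (range z).Finite := by
    have h3 : range z ⊆ z '' (Iio p) := by
      rintro _ ⟨k, rfl⟩
      refine ⟨k % p, Nat.mod_lt _ hp, ?_⟩
      have h4 : k % p + k / p * p = k := by rw [mul_comm]; exact Nat.mod_add_div k p
      rw [← per_mul hper (k % p) (k / p), h4]
    exact ((finite_Iio p).image z).subset h3
  have hcard : q - 1 ≤ n := by
    refine le_trans ?_ hn
    have h3 : (Finset.Icc 1 (q - 1)).card = q - 1 := by simp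
    rw [← h3, ← Set.ncard_coe_finset]
    refine Set.ncard_le_ncard_of_injOn (fun i => z (a + i)) ?_ ?_ (hfin.subset (sep_subset _ _))
    · intro i hi
      simp only [Finset.coe_Icc, mem_Icc] at hi
      exact ⟨⟨a + i, rfl⟩, hq' i (by omega) hi.1⟩
    · intro i hi j hj hij
      simp only [Finset.coe_Icc, mem_Icc] at hi hj
      rcases lt_trichotomy i j with h4 | h4 | h4
      · exact absurd hij (hinj i j hi.1 h4 (by omega))
      · exact h4
      · exact absurd hij.symm (hinj j i hj.1 h4 (by omega))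
  refine ⟨fun j => z (a + j), q - 2, fun j => hfl (a + j), ?_, by simpa using ha1, ?_, ?_, by omega⟩
  · apply Set.Subset.antisymm
    · rintro _ ⟨k, rfl⟩
      refine ⟨k + a * p - a, ?_⟩
      have h3 : a ≤ a * p := Nat.le_mul_of_pos_right _ hp
      have h4 : a + (k + a * p - a) = k + a * p := by omega
      simp only [h4]
      exact per_mul hper k a
    · rintro _ ⟨k, rfl⟩
      exact ⟨a + k, rfl⟩
  · have : q - 2 + 2 = q := by omega
    simp only [this]
    exact hq.2
  · intro j hj1 hj2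
    exact hq' j (by omega) hj1

/-- the orbit is determined by the data -/
lemma unique_rep (hG : G_GRU S) {z z' : ℕ → St S} {k : ℕ} (h : ∀ j, FlG (z j) (z (j + 1)))
    (h' : ∀ j, FlG (z' j) (z' (j + 1))) (hi : ∀ j ≤ k + 2, (z j).i = (z' j).i)
    (h0 : |(z 0).φ| = Real.pi / 2) (h0' : |(z' 0).φ| = Real.pi / 2)
    (hk : |(z (k + 2)).φ| = Real.pi / 2) (hk' : |(z' (k + 2)).φ| = Real.pi / 2)
    (s0 : 0 < (z 0).φ ↔ 0 < (z' 0).φ) (sk : 0 < (z (k + 2)).φ ↔ 0 < (z' (k + 2)).φ) :
    range z = range z' := by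
  have hsg : ∀ a b : ℝ, |a| = Real.pi / 2 → |b| = Real.pi / 2 → (0 < a ↔ 0 < b) → a = b := by
    intro a b ha hb hab
    have hpi := Real.pi_pos
    rcases (abs_eq (by positivity : (0:ℝ) ≤ Real.pi / 2)).mp ha with h1 | h1 <;>
    rcases (abs_eq (by positivity : (0:ℝ) ≤ Real.pi / 2)).mp hb with h2 | h2
    · rw [h1, h2]
    · have := hab.mp (by rw [h1]; positivity)
      linarith
    · have := hab.mpr (by rw [h2]; positivity)
      linarith
    · rw [h1, h2]
  have h1 := hG (k + 2) z z' (by omega) (fun j _ => h j) (fun j _ => h' j) hi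
    (hsg _ _ h0 h0' s0) h0 (hsg _ _ hk hk' sk) hk
  have h2 : z = z' := by
    funext j
    have := det_seq h h' h1 j
    simpa using this
  rw [h2]

theorem thm (S : Sys) : G_GRU S → G_GRC0 S := by
  classical
  intro hG n
  -- the finite set of data
  let W : ∀ k : ℕ, Finset (Fin (k + 1) → S.ι) := fun k =>
    (Set.toFinite (res k '' {w | PW S k w})).toFinset
  let A : Finset (Σ k : ℕ, S.ι × S.ι × Bool × Bool × (Fin (k + 1) → S.ι)) :=
    (Finset.range n).sigma (fun k => Finset.univ ×ˢ Finset.univ ×ˢ Finset.univ ×ˢ Finset.univ ×ˢ W k)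
  have hex : ∀ O ∈ TanOrb0 S n, ∃ (z : ℕ → St S) (k : ℕ), (∀ j, FlG (z j) (z (j + 1))) ∧
      O = range z ∧ |(z 0).φ| = Real.pi / 2 ∧ |(z (k + 2)).φ| = Real.pi / 2 ∧
      (∀ j, 1 ≤ j → j ≤ k + 1 → |(z j).φ| < Real.pi / 2) ∧ k < n := fun O hO => exist_rep hO
  rcases (TanOrb0 S n).eq_empty_or_nonempty with hemp | ⟨O0, hO0⟩
  · rw [hemp]
    exact ⟨Set.finite_empty, by simp⟩
  have : Nonempty (ℕ → St S) := ⟨(hex O0 hO0).choose⟩
  choose! z k hz1 hz2 hz3 hz4 hz5 hz6 using hex
  let F : Set (St S) → Σ k : ℕ, S.ι × S.ι × Bool × Bool × (Fin (k + 1) → S.ι) := fun O =>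
    ⟨k O, (z O 0).i, (z O (k O + 2)).i, decide (0 < (z O 0).φ), decide (0 < (z O (k O + 2)).φ),
      res (k O) (fun j => (z O (1 + j)).i)⟩
  have hF : ∀ O ∈ TanOrb0 S n, F O ∈ (A : Set _) := by
    intro O hO
    simp only [F, A, W, Finset.coe_sigma, Finset.mem_coe, Finset.mem_sigma, Set.mem_sigma_iff,
      Finset.mem_range, Finset.mem_product, Finset.mem_univ, true_and, Set.Finite.mem_toFinset]
    refine ⟨hz6 O hO, (fun j => (z O (1 + j)).i), ⟨fun j => z O (1 + j), ⟨fun j hj => ?_,
      fun j hj => ?_⟩, fun j hj => rfl⟩, rfl⟩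
    · exact ⟨(hz1 O hO (1 + j)).1.1, hz5 O hO _ (by omega) (by omega)⟩
    · have h1 := hz1 O hO (1 + j)
      exact ⟨⟨h1.1.1, hz5 O hO _ (by omega) (by omega)⟩,
        ⟨h1.2.1.1, hz5 O hO (1 + j + 1) (by omega) (by omega)⟩, h1.2.2⟩
  have hinj : InjOn F (TanOrb0 S n) := by
    intro O hO O' hO' hFF
    have hk : k O = k O' := congrArg Sigma.fst hFF
    have e1 : (z O 0).i = (z O' 0).i := congrArg (fun x => x.2.1) hFF
    have e2 : (z O (k O + 2)).i = (z O' (k O' + 2)).i := congrArg (fun x => x.2.2.1) hFF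
    have e3 : decide (0 < (z O 0).φ) = decide (0 < (z O' 0).φ) :=
      congrArg (fun x => x.2.2.2.1) hFF
    have e4 : decide (0 < (z O (k O + 2)).φ) = decide (0 < (z O' (k O' + 2)).φ) :=
      congrArg (fun x => x.2.2.2.2.1) hFF
    have e5 : ∀ j, j ≤ k O → (z O (1 + j)).i = (z O' (1 + j)).i := by
      intro j hj
      have h1 := congrArg (fun x : (Σ k : ℕ, S.ι × S.ι × Bool × Bool × (Fin (k + 1) → S.ι)) =>
        if h : j < x.1 + 1 then some (x.2.2.2.2.2 ⟨j, h⟩) else none) hFF
      simp only [F] at h1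
      rw [dif_pos (by omega), dif_pos (by omega)] at h1
      exact Option.some.inj h1
    rw [hz2 O hO, hz2 O' hO']
    rw [← hk] at e2 e4
    refine unique_rep hG (k := k O) (hz1 O hO) (hz1 O' hO') (fun j hj => ?_) (hz3 O hO) (hz3 O' hO')
      (hz4 O hO) (by rw [hk]; exact hz4 O' hO') (by simpa using e3) (by simpa using e4)
    rcases Nat.eq_zero_or_pos j with rfl | hj0
    · exact e1
    · rcases Nat.lt_or_ge j (k O + 2) with hj1 | hj1
      · have := e5 (j - 1) (by omega)
        have h2 : 1 + (j - 1) = j := by omega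
        rw [h2] at this
        exact this
      · have : j = k O + 2 := by omega
        rw [this]
        exact e2
  have hfin : (TanOrb0 S n).Finite := Set.Finite.of_injOn hF hinj A.finite_toSet
  refine ⟨hfin, ?_⟩
  have h1 : (TanOrb0 S n).ncard ≤ A.card := by
    rw [← Set.ncard_coe_finset]
    exact Set.ncard_le_ncard_of_injOn F hF hinj A.finite_toSet
  have h2 : A.card = ∑ k ∈ Finset.range n, 4 * (Fintype.card S.ι) ^ 2 * AW S k := by
    rw [Finset.card_sigma]
    refine Finset.sum_congr rfl (fun k _ => ?_)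
    rw [Finset.card_product, Finset.card_product, Finset.card_product, Finset.card_product]
    have h3 : (W k).card = AW S k := by
      simp only [W, AW, cnt]
      rw [Set.ncard_eq_toFinset_card _ (Set.toFinite _)]
    rw [h3]
    simp only [Finset.card_univ, Fintype.card_bool]
    ring
  rw [h2, ← Finset.mul_sum] at h1
  refine h1.trans (Nat.mul_le_mul_left _ ?_)
  rw [Finset.sum_range_succ]
  omega

end Pool.Agent.Helper42.DB.PkGRC0
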