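import Pool.Agent.Helper42.DB.Goals2

set_option autoImplicit false

/-! # Packet INTF -/

namespace Pool.Agent.Helper42.DB.PkINTF

open Set Filter Topology

variable {S : Sys}

/-- the conclusion -/
def Concl (n : ℕ) (w : ℕ → S.ι) (p q : ℝ) (x : ℝ → St S) (z0 z1 : ℕ → St S) : Prop :=
  ∃ Z : ℝ → ℕ → St S, (∀ l ∈ Icc p q, Cyl n w (Z l) ∧ Z l 0 = x l) ∧
    (∀ k ≤ n, Z p k = z0 k ∧ Z q k = z1 k) ∧
    ∀ k ≤ n, Fam (w k) p q (fun l => Z l k) ∧ (0 < k →
      (StrictMonoOn (fun l => (Z l k).u) (Icc p q) ∧ StrictMonoOn (fun l => (Z l k).th) (Icc p q)) ∨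
      (StrictAntiOn (fun l => (Z l k).u) (Icc p q) ∧ StrictAntiOn (fun l => (Z l k).th) (Icc p q)))

lemma flip_mem {p q l : ℝ} (h : l ∈ Icc p q) : p + q - l ∈ Icc p q :=
  ⟨by linarith [h.2], by linarith [h.1]⟩

lemma fam_flip {i : S.ι} {p q : ℝ} {x : ℝ → St S} (h : Fam i p q x) :
    Fam i p q (fun l => x (p + q - l)) := by
  have hc : ContinuousOn (fun l : ℝ => p + q - l) (Icc p q) := by fun_prop
  exact ⟨fun l hl => h.arc _ (flip_mem hl), fun l hl => h.ok _ (flip_mem hl),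
    h.cu.comp hc (fun l hl => flip_mem hl), h.cφ.comp hc (fun l hl => flip_mem hl)⟩

lemma strictMono_flip {f : ℝ → ℝ} {p q : ℝ} (h : StrictMonoOn f (Icc p q)) :
    StrictAntiOn (fun l => f (p + q - l)) (Icc p q) := fun a ha b hb hab =>
  h (flip_mem hb) (flip_mem ha) (by linarith)

lemma strictAnti_flip {f : ℝ → ℝ} {p q : ℝ} (h : StrictAntiOn f (Icc p q)) :
    StrictMonoOn (fun l => f (p + q - l)) (Icc p q) := fun a ha b hb hab =>
  h (flip_mem hb) (flip_mem ha) (by linarith)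

lemma decF_flip {p q : ℝ} {x : ℝ → St S} (h : DecF p q x) : IncF p q (fun l => x (p + q - l)) := by
  obtain ⟨h1, h2, h3⟩ := h
  refine ⟨fun a ha b hb hab => h1 (flip_mem hb) (flip_mem ha) (by linarith),
    fun a ha b hb hab => h2 (flip_mem hb) (flip_mem ha) (by linarith), fun a ha b hb hab => ?_⟩
  exact h3 _ (flip_mem hb) _ (flip_mem ha) (by linarith)

/-- the decreasing case from the increasing case -/
lemma dec_of_inc {n : ℕ} {w : ℕ → S.ι} {p q : ℝ} (hpq : p < q)
    (H : ∀ (x : ℝ → St S) (z0 z1 : ℕ → St S), Fam (w 0) p q x → IncF p q x → Cyl n w z0 →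
      Cyl n w z1 → z0 0 = x p → z1 0 = x q → Concl n w p q x z0 z1)
    (x : ℝ → St S) (z0 z1 : ℕ → St S) (hF : Fam (w 0) p q x) (hD : DecF p q x)
    (h0 : Cyl n w z0) (h1 : Cyl n w z1) (e0 : z0 0 = x p) (e1 : z1 0 = x q) :
    Concl n w p q x z0 z1 := by
  have hp : p + q - p = q := by ring
  have hq : p + q - q = p := by ring
  obtain ⟨Z, hZ1, hZ2, hZ3⟩ := H (fun l => x (p + q - l)) z1 z0 (fam_flip hF) (decF_flip hD) h1 h0
    (by rw [e1, hp]) (by rw [e0, hq])
  refine ⟨fun l => Z (p + q - l), fun l hl => ?_, fun k hk => ?_, fun k hk => ?_⟩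
  · obtain ⟨h2, h3⟩ := hZ1 _ (flip_mem hl)
    refine ⟨h2, h3.trans ?_⟩
    simp only
    congr 1
    ring
  · simp only [hp, hq]
    exact ⟨(hZ2 k hk).2, (hZ2 k hk).1⟩
  · obtain ⟨h2, h3⟩ := hZ3 k hk
    refine ⟨fam_flip h2, fun hk0 => ?_⟩
    rcases h3 hk0 with ⟨h4, h5⟩ | ⟨h4, h5⟩
    · exact Or.inr ⟨strictMono_flip h4, strictMono_flip h5⟩
    · exact Or.inl ⟨strictAnti_flip h4, strictAnti_flip h5⟩

theorem inc (hS : G_STEP S) (p q : ℝ) (hpq : p < q) : ∀ (n : ℕ) (w : ℕ → S.ι) (x : ℝ → St S)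
    (z0 z1 : ℕ → St S), Fam (w 0) p q x → IncF p q x → Cyl n w z0 →
      Cyl n w z1 → z0 0 = x p → z1 0 = x q → Concl n w p q x z0 z1 := by
  intro n
  induction n with
  | zero =>
    intro w x z0 z1 hF hI h0 h1 e0 e1
    refine ⟨fun l _ => x l, fun l hl => ⟨⟨⟨fun k hk => hF.ok l hl, fun k hk => absurd hk (by omega)⟩,
      fun k hk => ?_⟩, rfl⟩, fun k hk => ?_, fun k hk => ?_⟩
    · obtain rfl : k = 0 := by omega
      exact hF.arc l hl
    · obtain rfl : k = 0 := by omega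
      exact ⟨e0.symm, e1.symm⟩
    · obtain rfl : k = 0 := by omega
      exact ⟨hF, fun h => absurd h (by omega)⟩
  | succ n ih =>
    intro w x z0 z1 hF hI h0 h1 e0 e1
    have f0 : Fl (x p) (z0 1) := by
      rw [← e0]
      exact h0.1.2 0 (by omega)
    have f1 : Fl (x q) (z1 1) := by
      rw [← e1]
      exact h1.1.2 0 (by omega)
    have a0 : (z0 1).i = w 1 := h0.2 1 (by omega)
    have a1 : (z1 1).i = w 1 := h1.2 1 (by omega)
    obtain ⟨y, yp, yq, hyF, hyl, hyu, hyt⟩ := hS (w 0) p q x (z0 1) (z1 1) hpq hF hI f0 f1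
      (a0.trans a1.symm)
    rw [a0] at hyF
    have hyD : DecF p q y := ⟨hyu.antitoneOn, hyt.antitoneOn, fun l hl l' hl' hll =>
      Or.inl (hyu hl hl' hll)⟩
    have c0 : Cyl n (sh 1 w) (fun k => z0 (1 + k)) := by
      refine ⟨⟨fun k hk => h0.1.1 _ (by omega), fun k hk => ?_⟩, fun k hk => h0.2 _ (by omega)⟩
      have := h0.1.2 (1 + k) (by omega)
      exact this
    have c1 : Cyl n (sh 1 w) (fun k => z1 (1 + k)) := by
      refine ⟨⟨fun k hk => h1.1.1 _ (by omega), fun k hk => ?_⟩, fun k hk => h1.2 _ (by omega)⟩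
      have := h1.1.2 (1 + k) (by omega)
      exact this
    obtain ⟨Z, hZ1, hZ2, hZ3⟩ := dec_of_inc (n := n) (w := sh 1 w) hpq
      (fun x z0 z1 => ih (sh 1 w) x z0 z1) y (fun k => z0 (1 + k)) (fun k => z1 (1 + k))
      hyF hyD c0 c1 yp.symm yq.symm
    refine ⟨fun l k => match k with
      | 0 => x l
      | k + 1 => Z l k, fun l hl => ⟨⟨⟨fun k hk => ?_, fun k hk => ?_⟩, fun k hk => ?_⟩, rfl⟩,
      fun k hk => ?_, fun k hk => ?_⟩
    · rcases k with _ | k
      · exact hF.ok l hl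
      · exact (hZ1 l hl).1.1.1 k (by omega)
    · rcases k with _ | k
      · have := hyl l hl
        rw [← (hZ1 l hl).2] at this
        exact this
      · exact (hZ1 l hl).1.1.2 k (by omega)
    · rcases k with _ | k
      · exact hF.arc l hl
      · have := (hZ1 l hl).1.2 k (by omega)
        simp only [sh, add_comm 1 k] at this
        exact this
    · rcases k with _ | k
      · exact ⟨e0.symm, e1.symm⟩
      · have := hZ2 k (by omega)
        simp only [add_comm 1 k] at this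
        exact this
    · rcases k with _ | k
      · exact ⟨hF, fun h => absurd h (by omega)⟩
      · obtain ⟨h2, h3⟩ := hZ3 k (by omega)
        simp only [sh, add_comm 1 k] at h2
        refine ⟨h2, fun _ => ?_⟩
        rcases Nat.eq_zero_or_pos k with rfl | hk0
        · refine Or.inr ⟨?_, ?_⟩
          · refine hyu.congr (fun l hl => ?_)
            simp only [(hZ1 l hl).2]
          · refine hyt.congr (fun l hl => ?_)
            simp only [(hZ1 l hl).2]
        · exact h3 hk0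

theorem thm (S : Sys) : G_STEP S → G_INTF S := by
  intro hS n w p q x z0 z1 hpq hF hID h0 h1 e0 e1
  rcases hID with hI | hD
  · exact inc hS p q hpq n w x z0 z1 hF hI h0 h1 e0 e1
  · exact dec_of_inc hpq (fun x z0 z1 => inc hS p q hpq n w x z0 z1) x z0 z1 hF hD h0 h1 e0 e1

end Pool.Agent.Helper42.DB.PkINTF
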